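import Pool.Agent.H480R3.Seg.CoreT

/-! Singularities beyond `1 + δ` force oscillations of size `x^δ` (helper480). -/

set_option autoImplicit false

open Complex Filter Topology Finset

namespace Pool.Agent.H480R3.Seg

open Pool.Agent.H438R3.BSD Pool.Agent.H438R3.BSD.Gen

variable {LL : ℕ → ℂ → ℂ} {ell : ℕ → ℝ} {A : ℝ}

/-- the Euler product has a holomorphic continuation without zeros to `Re s > t0` -/
def ExtT (t0 : ℝ) (F : ℂ → ℂ) : Prop :=
  ∃ F' : ℂ → ℂ, DifferentiableOn ℂ F' {s | t0 < s.re} ∧ (∀ s, t0 < s.re → F' s ≠ 0) ∧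
    ∀ s, 3 / 2 < s.re → F' s = F s

/-- the Dirichlet series of `n^δ` -/
lemma hasSum_pow (δ : ℝ) (s : ℂ) (hs : 1 + δ < s.re) :
    LSeriesSummable (fun n : ℕ => (((n : ℝ) ^ δ : ℝ) : ℂ)) s ∧
    LSeries (fun n : ℕ => (((n : ℝ) ^ δ : ℝ) : ℂ)) s = riemannZeta (s - δ) := by
  have hre : 1 < (s - δ).re := by rw [sub_re, ofReal_re]; linarith
  have e : LSeries.term (fun n : ℕ => (((n : ℝ) ^ δ : ℝ) : ℂ)) s = LSeries.term 1 (s - δ) := by
    funext n
    rcases eq_or_ne n 0 with h | h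
    · rw [h, LSeries.term_zero, LSeries.term_zero]
    · have hn : (n : ℂ) ≠ 0 := by exact_mod_cast h
      rw [LSeries.term_of_ne_zero h, LSeries.term_of_ne_zero h, Complex.cpow_sub _ _ hn,
        Complex.ofReal_cpow (by positivity)]
      simp only [Pi.one_apply, ofReal_natCast]
      rw [one_div, inv_div]
  constructor
  · unfold LSeriesSummable
    rw [e]
    exact (LSeriesSummable_one_iff).2 hre
  · unfold LSeries
    rw [e]
    exact LSeries_one_eq_riemannZeta hre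

/-- The abstract theorem. -/
theorem main_absT (h : Loc LL ell A) (δ : ℝ) (hδ0 : 0 ≤ δ) (hδ : δ < 1 / 2) (ε C D : ℝ)
    (hε : ε = 1 ∨ ε = -1) (hG : ∀ n : ℕ, 0 ≤ PS C (mm ell ε 0) n + D * (n : ℝ) ^ δ) (F : ℂ → ℂ)
    (hF : ∀ σ : ℝ, 1 + δ < σ → AnalyticAt ℂ F σ)
    (hprod : ∀ s : ℂ, 3 / 2 < s.re → HasProd (fun p : ℕ => exp (LL p s)) (F s))
    (hreal : ε = -1 → ∀ σ : ℝ, 1 + δ < σ → F σ ≠ 0) : ExtT (1 + δ) F := by
  have hε1 : |ε| = 1 := by rcases hε with h | h <;> rw [h] <;> simp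
  have hε2 : (ε : ℂ) * ε = 1 := by
    rcases hε with h | h <;> rw [h] <;> push_cast <;> ring
  have hApos := h.pos
  set m := mm ell ε 0 with hm
  set Kc : ℝ := |C| + 2 * (|(0 : ℝ)| + A) with hKc
  have hKc0 : 0 ≤ Kc := by positivity
  have hPS : ∀ n : ℕ, 1 ≤ n → |PS C m n| ≤ Kc * (n : ℝ) ^ (1 / 2 : ℝ) :=
    fun n hn => PS_le h ε 0 C hε1 n hn
  set W0 : ℂ → ℂ := fun s => (∑' p, Gen.dd LL ell p s) - (0 : ℝ) * LSeries pr s -
    ε * (EE C m s + C) with hW0
  have hWd0 : DifferentiableOn ℂ W0 {s | 1 < s.re} := by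
    apply DifferentiableOn.sub
    · exact (Gen.DD_differentiable h).sub (pr_differentiable.const_mul _)
    · exact ((EE_differentiable hKc0 hPS).add_const _).const_mul _
  have hrel0 : ∀ s : ℂ, 3 / 2 < s.re →
      F s = exp (W0 s + ε * (s - 1) * LSeries (fun n => (PS C m n : ℂ)) s) := by
    intro s hs
    have hFe := prod_eq h hs (hprod s hs)
    have hP := P_hasSum h ε 0 hs
    have hab := abel_rel hKc0 hPS s hs _ hP
    rw [hFe]
    congr 1
    have e6 : (ε : ℂ) * (s - 1) * LSeries (fun n => (PS C m n : ℂ)) s =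
        ε * (EE C m s + C + ε * ((0 : ℝ) * LSeries pr s - ∑' n : ℕ, (ell n : ℂ) * (n : ℂ) ^ (1 - s))) := by
      rw [← hab]; ring
    rw [e6, hW0]
    simp only
    linear_combination (-((0 : ℝ) * LSeries pr s - ∑' n : ℕ, (ell n : ℂ) * (n : ℂ) ^ (1 - s))) * hε2
  set W : ℂ → ℂ := fun s => W0 s - ε * (s - 1) * (D * riemannZeta (s - δ)) with hW
  have hWd : DifferentiableOn ℂ W {s | 1 + δ < s.re} := by
    apply DifferentiableOn.sub
    · exact hWd0.mono fun s (hs : 1 + δ < s.re) => show 1 < s.re by linarith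
    · intro s hs
      have hs' : 1 + δ < s.re := hs
      have hne : s - δ ≠ 1 := by
        intro hcon
        have := congrArg Complex.re hcon
        rw [sub_re, ofReal_re, one_re] at this
        linarith
      have h1 : DifferentiableAt ℂ (fun s : ℂ => riemannZeta (s - δ)) s :=
        DifferentiableAt.comp s (differentiableAt_riemannZeta hne) (by fun_prop)
      exact (((by fun_prop : DifferentiableAt ℂ (fun s : ℂ => (ε : ℂ) * (s - 1)) s)).mul
        (h1.const_mul _)).differentiableWithinAt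
  set G : ℕ → ℝ := fun n => PS C m n + D * (n : ℝ) ^ δ with hGd
  have hsum : ∀ s : ℂ, 3 / 2 < s.re → LSeriesSummable (fun n => (G n : ℂ)) s ∧
      LSeries (fun n => (G n : ℂ)) s = LSeries (fun n => (PS C m n : ℂ)) s +
        D * riemannZeta (s - δ) := by
    intro s hs
    have h1 := PS_summable hPS s hs
    obtain ⟨h2, h3⟩ := hasSum_pow δ s (by linarith)
    have e : (fun n : ℕ => (G n : ℂ)) = (fun n => (PS C m n : ℂ)) +
        (D : ℂ) • (fun n : ℕ => (((n : ℝ) ^ δ : ℝ) : ℂ)) := by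
      funext n
      rw [hGd]
      simp only [Pi.add_apply, Pi.smul_apply, smul_eq_mul]
      push_cast
      ring
    rw [e]
    have h4 := h2.smul (D : ℂ)
    exact ⟨h1.add h4, by rw [LSeries_add h1 h4, LSeries_smul, h3]⟩
  have hrel : ∀ s : ℂ, 3 / 2 < s.re →
      F s = exp (W s + ε * (s - 1) ^ 1 * LSeries (fun n => (G n : ℂ)) s) := by
    intro s hs
    rw [hrel0 s hs, (hsum s hs).2, hW]
    congr 1
    ring
  obtain ⟨hone, -⟩ := coreT (1 + δ) (by linarith) G hG ε hε 1 F W hF hWd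
    (fun s hs => (hsum s hs).1) hrel hreal
  exact ⟨_, rhs_factsT (1 + δ) (fun n => (G n : ℂ)) ε 1 W hWd hone,
    fun s _ => Complex.exp_ne_zero _, fun s hs => (hrel s hs).symm⟩

/-- from an eventual bound to a bound for all `n` -/
lemma PS_mm (ε C : ℝ) (n : ℕ) (h : Loc LL ell A) :
    PS C (mm ell ε 0) n = C - ε * lE ell n := by
  unfold PS lE
  rw [Finset.mul_sum, sub_eq_add_neg, ← Finset.sum_neg_distrib]
  congr 1
  refine Finset.sum_congr rfl fun k _ => ?_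
  unfold Gen.mm
  split_ifs with hk
  · ring
  · rw [h.zeroE k hk]; ring

/-- the upper half -/
theorem mainAT (h : Loc LL ell A) (δ : ℝ) (hδ0 : 0 ≤ δ) (hδ : δ < 1 / 2) {F : ℂ → ℂ}
    (hF : ∀ σ : ℝ, 1 + δ < σ → AnalyticAt ℂ F σ)
    (hprod : ∀ s : ℂ, 3 / 2 < s.re → HasProd (fun p : ℕ => exp (LL p s)) (F s))
    (g : ℕ → ℝ) (B : ℝ) (hg : ∀ n, |g n - lE ell n| ≤ B) (hne : ¬ ExtT (1 + δ) F) (C : ℝ) :
    ∃ᶠ x : ℕ in atTop, C * (x : ℝ) ^ δ < g x := by
  by_contra hcon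
  rw [Filter.not_frequently] at hcon
  obtain ⟨N, hN⟩ := Filter.eventually_atTop.1 hcon
  refine hne (main_absT h δ hδ0 hδ 1 (B + ∑ k ∈ Finset.range N, |lE ell k|) |C| (Or.inl rfl) ?_ F hF hprod
    (fun h1 => absurd h1 (by norm_num)))
  intro n
  rw [PS_mm 1 _ n h, one_mul]
  have hsum0 : 0 ≤ ∑ k ∈ Finset.range N, |lE ell k| := Finset.sum_nonneg fun k _ => abs_nonneg _
  have hn0 : (0 : ℝ) ≤ (n : ℝ) ^ δ := by positivity
  have hB : 0 ≤ B := (abs_nonneg _).trans (hg 0)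
  rcases lt_or_ge n N with hn | hn
  · have h1 : |lE ell n| ≤ ∑ k ∈ Finset.range N, |lE ell k| :=
      Finset.single_le_sum (f := fun k => |lE ell k|) (fun k _ => abs_nonneg _)
        (Finset.mem_range.2 hn)
    have h2 := le_abs_self (lE ell n)
    have h3 : 0 ≤ |C| * (n : ℝ) ^ δ := by positivity
    linarith
  · have h1 := hN n hn
    rw [not_lt] at h1
    have h2 := (abs_le.1 (hg n)).1
    have h3 : C * (n : ℝ) ^ δ ≤ |C| * (n : ℝ) ^ δ :=
      mul_le_mul_of_nonneg_right (le_abs_self C) hn0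
    linarith

lemma ExtT_inv {t0 : ℝ} {F : ℂ → ℂ} (hE : ExtT t0 (fun s => (F s)⁻¹)) : ExtT t0 F := by
  obtain ⟨F', h1, h2, h3⟩ := hE
  refine ⟨fun s => (F' s)⁻¹, h1.inv fun s hs => h2 s hs, fun s hs => inv_ne_zero (h2 s hs), ?_⟩
  intro s hs
  simp only [h3 s hs, inv_inv]

/-- the lower half -/
theorem mainBT (h : Loc LL ell A) (δ : ℝ) (hδ0 : 0 ≤ δ) (hδ : δ < 1 / 2) {F : ℂ → ℂ}
    (hF : ∀ σ : ℝ, 1 + δ < σ → AnalyticAt ℂ (fun s => (F s)⁻¹) σ)
    (hprod : ∀ s : ℂ, 3 / 2 < s.re → HasProd (fun p : ℕ => exp (LL p s)) (F s))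
    (g : ℕ → ℝ) (B : ℝ) (hg : ∀ n, |g n - lE ell n| ≤ B) (hne : ¬ ExtT (1 + δ) F) (C : ℝ) :
    ∃ᶠ x : ℕ in atTop, g x < -(C * (x : ℝ) ^ δ) := by
  have hg' : ∀ n, |(fun k => -g k) n - lE (fun p => -ell p) n| ≤ B := by
    intro n
    have e : lE (fun p => -ell p) n = -lE ell n := by
      unfold lE
      rw [Finset.sum_neg_distrib]
    simp only
    rw [e, ← abs_neg]
    have e2 : -(-g n - -lE ell n) = g n - lE ell n := by ring
    rw [e2]
    exact hg n
  have h1 := mainAT (locNeg h) δ hδ0 hδ hF (fun s hs => prod_inv h hprod s hs) (fun k => -g k) B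
    hg' (fun h4 => hne (ExtT_inv h4)) C
  exact h1.mono fun x hx => by linarith

end Pool.Agent.H480R3.Seg
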