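import Pool.Agent.H480R3.Seg.Mat

/-! Artin L-functions with real characters (helper480). -/

set_option autoImplicit false

open Complex Filter Topology Finset NumberField

namespace Pool.Agent.H480R3.Seg.Artin

open Pool.Agent.H438R3.BSD

/-- `p` is a prime number not dividing the discriminant of `K` -/
def Good (K : Type) [Field K] [NumberField K] (p : ℕ) : Prop := p.Prime ∧ ¬ (p : ℤ) ∣ discr K

/-- `σ` is a Frobenius element at the prime number `p` -/
def IsFrob (K : Type) [Field K] [NumberField K] (p : ℕ) (σ : K ≃ₐ[ℚ] K) : Prop :=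
  ∃ P : Ideal (𝓞 K), P.IsPrime ∧ (p : 𝓞 K) ∈ P ∧ ∀ x y : 𝓞 K, (y : K) = σ x → y - x ^ p ∈ P

variable {K : Type} [Field K] [NumberField K] {n : ℕ}
  (ρ : (K ≃ₐ[ℚ] K) →* Matrix.GeneralLinearGroup (Fin n) ℂ) (frob : ℕ → (K ≃ₐ[ℚ] K))

/-- the polynomial `det(1 - z ρ(Frob_p))` -/
noncomputable def pol (p : ℕ) (z : ℂ) : ℂ :=
  (1 - z • (ρ (frob p) : Matrix (Fin n) (Fin n) ℂ)).det

open Classical in
/-- for `Re s > 1`, `L s` is the Artin L-function of `ρ`, without the Euler factors at the primes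
dividing the discriminant of `K` -/
def IsL (L : ℂ → ℂ) : Prop :=
  ∀ s : ℂ, 1 < s.re →
    HasProd (fun p : ℕ => if Good K p then (pol ρ frob p ((p : ℂ) ^ (-s)))⁻¹ else 1) (L s)

open Classical in
/-- the product of the numbers `|det(1 - p^(-1/2) ρ(Frob_p))|` over the good primes `p ≤ x` -/
noncomputable def EP (x : ℕ) : ℝ :=
  ∏ p ∈ Finset.Icc 1 x, if Good K p then ‖pol ρ frob p ((p : ℂ) ^ (-(1 / 2) : ℂ))‖ else 1

/-- the logarithmic average of `log EP(n) - κ log log n` over `2 ≤ n ≤ x` -/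
noncomputable def LA (κ : ℝ) (x : ℕ) : ℝ :=
  (∑ n ∈ Finset.Icc 2 x, (Real.log (EP ρ frob n) - κ * Real.log (Real.log n)) / n) / Real.log x

/-- `L` has a holomorphic continuation without zeros from `Re s > 1` to `Re s > 1/2` -/
def Ext (L : ℂ → ℂ) : Prop :=
  ∃ L' : ℂ → ℂ, DifferentiableOn ℂ L' {s | 1 / 2 < s.re} ∧ (∀ s, 1 / 2 < s.re → L' s ≠ 0) ∧
    ∀ s, 1 < s.re → L' s = L s

/-- the matrices -/
noncomputable def MM (p : ℕ) : Matrix (Fin n) (Fin n) ℂ := (ρ (frob p) : Matrix (Fin n) (Fin n) ℂ)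

/-- the numbers `p^(1/2)` -/
noncomputable def ll (p : ℕ) (_ : Fin 1) : ℂ := (p : ℂ) ^ (1 / 2 : ℂ)

lemma fac_pol (p : ℕ) (z : ℂ) : fac (MM ρ frob) ll p z = pol ρ frob p ((p : ℂ) ^ (1 / 2 : ℂ) * z) := by
  unfold fac pol MM ll
  simp

lemma MM_pow (p : ℕ) : MM ρ frob p ^ Nat.card (K ≃ₐ[ℚ] K) = 1 := by
  unfold MM
  rw [← Units.val_pow_eq_pow_val, ← map_pow, pow_card_eq_one', map_one, Units.val_one]

lemma ll_norm (p : ℕ) (hp : Good K p) (j : Fin 1) : ‖ll p j‖ = (p : ℝ) ^ (1 / 2 : ℝ) := by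
  unfold ll
  rw [Complex.norm_natCast_cpow_of_pos hp.1.pos]
  norm_num

variable {ρ frob}

lemma im_zero (hρ : ∀ g, (ρ g : Matrix (Fin n) (Fin n) ℂ).trace.im = 0) (p : ℕ) (m : ℕ) :
    ((MM ρ frob p ^ m).trace * ∑ j, ll p j ^ m).im = 0 := by
  have h1 : (MM ρ frob p ^ m).trace.im = 0 := by
    unfold MM
    rw [← Units.val_pow_eq_pow_val, ← map_pow]
    exact hρ _
  have h2 : (∑ j : Fin 1, ll p j ^ m).im = 0 := by
    have : (∑ j : Fin 1, ll p j ^ m) = (((p : ℝ) ^ (1 / 2 : ℝ)) ^ m : ℝ) := by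
      unfold ll
      simp only [Finset.univ_unique, Finset.sum_const, Finset.card_singleton, one_smul]
      rw [Complex.ofReal_pow, Complex.ofReal_cpow (by positivity)]
      norm_num
    rw [this, Complex.ofReal_im]
  rw [Complex.mul_im, h1, h2]
  ring

open Classical in
lemma EP_eq (x : ℕ) : EPM (Good K) (MM ρ frob) ll x = EP ρ frob x := by
  unfold EPM EP
  refine Finset.prod_congr rfl fun p hp => ?_
  split_ifs with h
  · rw [fac_pol]
    congr 2
    have hpc : (p : ℂ) ≠ 0 := by exact_mod_cast h.1.ne_zero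
    rw [← Complex.cpow_neg_one, ← Complex.cpow_add _ _ hpc]
    norm_num
  · rfl

lemma LA_eq (κ : ℝ) (x : ℕ) :
    Gen.LA (fun x => Real.log (EPM (Good K) (MM ρ frob) ll x)) κ x = LA ρ frob κ x := by
  unfold Gen.LA LA
  simp_rw [EP_eq]

/-- shifting the half planes -/
lemma Ext_of {L : ℂ → ℂ} (h : Pool.Agent.H480R3.Seg.Ext (fun s => L (s + -(1 / 2)))) : Ext L := by
  obtain ⟨F', h1, h2, h3⟩ := h
  refine ⟨fun s => F' (s + 1 / 2), ?_, ?_, ?_⟩
  · refine h1.comp (by fun_prop) ?_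
    intro s hs
    have hs' : 1 / 2 < s.re := hs
    show 1 < (s + 1 / 2).re
    rw [Complex.add_re]
    norm_num
    linarith
  · intro s hs
    refine h2 _ ?_
    rw [Complex.add_re]
    norm_num
    linarith
  · intro s hs
    have h4 := h3 (s + 1 / 2) (by
      rw [Complex.add_re]
      norm_num
      linarith)
    simp only at h4 ⊢
    rw [h4]
    congr 1
    ring

theorem main (hρ : ∀ g, (ρ g : Matrix (Fin n) (Fin n) ℂ).trace.im = 0) {L : ℂ → ℂ}
    (hL : IsL ρ frob L) (hmero : ∀ σ : ℝ, 1 / 2 ≤ σ → MeromorphicAt L σ) :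
    ∃ m : ℤ, meromorphicOrderAt L (1 / 2) = m ∧
    ((∀ σ : ℝ, 1 / 2 < σ → AnalyticAt ℂ L σ) → ∀ κ : ℝ, (κ < m ∨ ¬ Ext L) → ∀ C : ℝ,
      (∃ᶠ x : ℕ in atTop, C < LA ρ frob κ x) ∧
      ∃ᶠ x : ℕ in atTop, C * Real.log x ^ κ < EP ρ frob x) ∧
    ((∀ σ : ℝ, 1 / 2 < σ → AnalyticAt ℂ (fun s => (L s)⁻¹) σ) →
      ∀ κ : ℝ, ((m : ℝ) < κ ∨ ¬ Ext L) → ∀ C : ℝ, 0 < C →
      (∃ᶠ x : ℕ in atTop, LA ρ frob κ x < -C) ∧
      ∃ᶠ x : ℕ in atTop, EP ρ frob x < C * Real.log x ^ κ) := by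
  classical
  have hcard : 0 < Nat.card (K ≃ₐ[ℚ] K) := Nat.card_pos
  have hcast : ∀ σ : ℝ, ((σ - 1 / 2 : ℝ) : ℂ) = (σ : ℂ) + -(1 / 2) := by
    intro σ; push_cast; ring
  obtain ⟨m, hm, h1, h2⟩ := mainM (good := Good K) (M := MM ρ frob) (lam := ll)
    (F := fun s => L (s + -(1 / 2))) (fun p hp => hp.1) hcard (fun p _ => MM_pow ρ frob p)
    (fun p hp j => ll_norm p hp j) (fun p _ m => im_zero hρ p m)
    (by
      intro σ hσ
      have h0 := hmero (σ - 1 / 2) (by linarith)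
      rw [hcast] at h0
      exact meromorphicAt_fun_comp_add_const_iff_meromorphicAt.2 h0)
    (by
      intro s hs
      have h0 := hL (s + -(1 / 2)) (by
        rw [Complex.add_re]
        norm_num
        linarith)
      suffices e : (fun p : ℕ => if Good K p then (fac (MM ρ frob) ll p ((p : ℂ) ^ (-s)))⁻¹ else 1) =
          fun p : ℕ => if Good K p then (pol ρ frob p ((p : ℂ) ^ (-(s + -(1 / 2)))))⁻¹ else 1 by
        rw [e]; exact h0
      funext p
      split_ifs with h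
      · rw [fac_pol]
        have hpc : (p : ℂ) ≠ 0 := by exact_mod_cast h.1.ne_zero
        rw [← Complex.cpow_add _ _ hpc]
        congr 3
        ring
      · rfl)
  refine ⟨m, ?_, ?_, ?_⟩
  · have e := meromorphicOrderAt_comp_add_const_eq_meromorphicOrderAt (𝕜 := ℂ) (x := (1 : ℂ))
      (c := -(1 / 2)) (f := L)
    have e2 : (1 : ℂ) + -(1 / 2) = 1 / 2 := by ring
    rw [e2] at e
    rw [← e]
    exact hm
  · intro hreal κ hκ C
    have hκ' : κ < m ∨ ¬ Pool.Agent.H480R3.Seg.Ext (fun s => L (s + -(1 / 2))) :=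
      hκ.imp id fun h h' => h (Ext_of h')
    have h3 := h1 (fun σ hσ => by
      have h0 := hreal (σ - 1 / 2) (by linarith)
      rw [hcast] at h0
      exact AnalyticAt.comp (g := L) (f := fun s : ℂ => s + -(1 / 2)) h0 (by fun_prop)) κ hκ' C
    simp_rw [LA_eq, EP_eq] at h3
    exact h3
  · intro hreal κ hκ C hC
    have hκ' : (m : ℝ) < κ ∨ ¬ Pool.Agent.H480R3.Seg.Ext (fun s => L (s + -(1 / 2))) :=
      hκ.imp id fun h h' => h (Ext_of h')
    have h3 := h2 (fun σ hσ => by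
      have h0 := hreal (σ - 1 / 2) (by linarith)
      rw [hcast] at h0
      exact AnalyticAt.comp (g := fun s => (L s)⁻¹) (f := fun s : ℂ => s + -(1 / 2)) h0
        (by fun_prop)) κ hκ' C hC
    simp_rw [LA_eq, EP_eq] at h3
    exact h3

end Pool.Agent.H480R3.Seg.Artin
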