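import Mathlib

/-! Linear algebra of a complex matrix of finite order (helper480). -/

set_option autoImplicit false

open Module Finset

namespace Pool.Agent.H480R3.Seg

lemma exists_eigenbasis {V : Type} [AddCommGroup V] [Module ℂ V] [FiniteDimensional ℂ V]
    (f : Module.End ℂ V) (N : ℕ) (hN : 0 < N) (hf : f ^ N = 1) :
    ∃ (ι : Type) (_ : Fintype ι) (_ : DecidableEq ι) (b : Basis ι ℂ V) (d : ι → ℂ),
      ∀ i, f (b i) = d i • b i := by
  classical
  have hs : f.IsSemisimple := by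
    refine Module.End.isSemisimple_of_squarefree_aeval_eq_zero
      (p := (Polynomial.X ^ N - 1 : Polynomial ℂ)) ?_ ?_
    · have h : (Polynomial.X ^ N - 1 : Polynomial ℂ).Separable := by
        rw [Polynomial.X_pow_sub_one_separable_iff]
        exact_mod_cast hN.ne'
      exact h.squarefree
    · simp [hf]
  let eigenDecomp := DirectSum.isInternal_submodule_of_iSupIndep_of_iSup_eq_top
    f.eigenspaces_iSupIndep hs.iSup_eigenspace_eq_top
  let v : Basis ((ν : ℂ) × Fin (finrank ℂ (f.eigenspace ν))) ℂ V :=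
    eigenDecomp.collectedBasis fun μ ↦ finBasis ℂ (f.eigenspace μ)
  have : Fintype ((ν : ℂ) × Fin (finrank ℂ (f.eigenspace ν))) :=
    FiniteDimensional.fintypeBasisIndex v
  refine ⟨_, this, inferInstance, v, Sigma.fst, fun i => ?_⟩
  exact Module.End.mem_eigenspace_iff.mp (eigenDecomp.collectedBasis_mem _ i)

/-- The eigenvalues of a matrix of finite order. -/
lemma exists_eigenvalues {n : ℕ} (A : Matrix (Fin n) (Fin n) ℂ) (N : ℕ) (hN : 0 < N)
    (hA : A ^ N = 1) :
    ∃ (ι : Type) (_ : Fintype ι) (d : ι → ℂ), Fintype.card ι = n ∧ (∀ i, ‖d i‖ = 1) ∧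
      (∀ m : ℕ, (A ^ m).trace = ∑ i, d i ^ m) ∧
      ∀ z : ℂ, (1 - z • A).det = ∏ i, (1 - z * d i) := by
  classical
  have hf : (Matrix.toLin' A : Module.End ℂ (Fin n → ℂ)) ^ N = 1 := by
    rw [← Matrix.toLin'_pow, hA, Matrix.toLin'_one]
    rfl
  obtain ⟨ι, _, _, b, d, hd⟩ := exists_eigenbasis _ N hN hf
  have hpow : ∀ (m : ℕ) (i : ι), ((Matrix.toLin' A : Module.End ℂ (Fin n → ℂ)) ^ m) (b i) =
      d i ^ m • b i := by
    intro m i
    induction m with
    | zero => simp
    | succ k ih =>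
      rw [pow_succ', Module.End.mul_apply, ih, map_smul, hd, smul_smul, pow_succ]
  refine ⟨ι, inferInstance, d, ?_, ?_, ?_, ?_⟩
  · have := Module.finrank_eq_card_basis b
    simpa using this.symm
  · intro i
    have h1 : d i ^ N = 1 := by
      have h2 := hpow N i
      rw [hf, Module.End.one_apply] at h2
      have h3 : (d i ^ N - 1) • b i = 0 := by rw [sub_smul, one_smul, ← h2, sub_self]
      rcases smul_eq_zero.1 h3 with h | h
      · exact sub_eq_zero.1 h
      · exact absurd h (b.ne_zero i)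
    exact Complex.norm_eq_one_of_pow_eq_one h1 hN.ne'
  · intro m
    have e : (A ^ m).trace = LinearMap.trace ℂ (Fin n → ℂ)
        ((Matrix.toLin' A : Module.End ℂ (Fin n → ℂ)) ^ m) := by
      rw [← Matrix.toLin'_pow, LinearMap.trace_eq_matrix_trace ℂ (Pi.basisFun ℂ (Fin n)),
        LinearMap.toMatrix_eq_toMatrix', LinearMap.toMatrix'_toLin']
    rw [e, LinearMap.trace_eq_matrix_trace ℂ b]
    unfold Matrix.trace
    refine Finset.sum_congr rfl fun i _ => ?_
    rw [Matrix.diag_apply, LinearMap.toMatrix_apply, hpow]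
    simp
  · intro z
    have e : (1 - z • A).det = LinearMap.det
        (1 - z • (Matrix.toLin' A : Module.End ℂ (Fin n → ℂ))) := by
      rw [← LinearMap.det_toLin']
      congr 1
      simp
      rfl
    rw [e, ← LinearMap.det_toMatrix b]
    have e2 : LinearMap.toMatrix b b (1 - z • (Matrix.toLin' A : Module.End ℂ (Fin n → ℂ))) =
        Matrix.diagonal fun i => 1 - z * d i := by
      ext i j
      rw [LinearMap.toMatrix_apply, LinearMap.sub_apply, LinearMap.smul_apply, hd,
        Module.End.one_apply, Matrix.diagonal_apply]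
      simp only [map_sub, map_smul, Basis.repr_self, Finsupp.coe_sub, Finsupp.coe_smul,
        Pi.sub_apply, Pi.smul_apply, smul_eq_mul, Finsupp.single_apply]
      by_cases h : i = j
      · subst h; simp
      · rw [if_neg h, if_neg (fun h' => h h'.symm)]; simp
    rw [e2, Matrix.det_diagonal]

/-- the determinant as an exponential -/
lemma det_eq_exp {n : ℕ} (A : Matrix (Fin n) (Fin n) ℂ) (N : ℕ) (hN : 0 < N) (hA : A ^ N = 1)
    (z : ℂ) (hz : ‖z‖ < 1) :
    ∃ S : ℂ, HasSum (fun m : ℕ => (A ^ (m + 1)).trace * z ^ (m + 1) / (m + 1 : ℂ)) S ∧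
      (1 - z • A).det = Complex.exp (-S) := by
  obtain ⟨ι, _, d, -, hd, htr, hdet⟩ := exists_eigenvalues A N hN hA
  have h1 : ∀ i, HasSum (fun m : ℕ => (z * d i) ^ (m + 1) / (m + 1 : ℂ)) (-Complex.log (1 - z * d i)) := by
    intro i
    have hlt : ‖z * d i‖ < 1 := by rw [norm_mul, hd, mul_one]; exact hz
    have h2 := Complex.hasSum_taylorSeries_neg_log hlt
    have h3 := (hasSum_nat_add_iff' 1).2 h2
    simpa using h3
  have h2 : HasSum (fun m : ℕ => (A ^ (m + 1)).trace * z ^ (m + 1) / (m + 1 : ℂ))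
      (∑ i, -Complex.log (1 - z * d i)) := by
    have h3 := hasSum_sum (s := Finset.univ) (fun i _ => h1 i)
    have e : (fun m : ℕ => (A ^ (m + 1)).trace * z ^ (m + 1) / (m + 1 : ℂ)) =
        fun m : ℕ => ∑ i, (z * d i) ^ (m + 1) / (m + 1 : ℂ) := by
      funext m
      rw [htr, Finset.sum_mul, Finset.sum_div]
      refine Finset.sum_congr rfl fun i _ => ?_
      rw [mul_pow]; ring
    rw [e]; exact h3
  refine ⟨_, h2, ?_⟩
  rw [hdet, Finset.sum_neg_distrib, neg_neg, Complex.exp_sum]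
  refine Finset.prod_congr rfl fun i _ => ?_
  rw [Complex.exp_log]
  intro h
  have h4 : ‖z * d i‖ = 1 := by
    rw [← (sub_eq_zero.1 h)]; simp
  rw [norm_mul, hd, mul_one] at h4
  linarith

lemma norm_trace_le {n : ℕ} (A : Matrix (Fin n) (Fin n) ℂ) (N : ℕ) (hN : 0 < N) (hA : A ^ N = 1)
    (m : ℕ) : ‖(A ^ m).trace‖ ≤ n := by
  obtain ⟨ι, _, d, hc, hd, htr, -⟩ := exists_eigenvalues A N hN hA
  rw [htr]
  refine (norm_sum_le _ _).trans ?_
  simp_rw [norm_pow, hd, one_pow]
  simp [hc]

end Pool.Agent.H480R3.Seg
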