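import Pool.Agent.H480R3.Seg.Abs

/-! The final form of the abstract theorem, for a function which is only known to be analytic at the
real points to the right of the centre (helper480; proofs adapted from helper438). -/

set_option autoImplicit false

open Complex Filter Topology Finset

namespace Pool.Agent.H480R3.Seg

open Pool.Agent.H438R3.BSD Pool.Agent.H438R3.BSD.Gen

variable {LL : ℕ → ℂ → ℂ} {ell : ℕ → ℝ} {A : ℝ}

/-- the order of vanishing from a bound on the real axis -/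
lemma order_of_boundR {F : ℂ → ℂ} (hF : MeromorphicAt F 1) (ε κ K : ℝ) (hε : ε = 1 ∨ ε = -1)
    (hK : ∀ᶠ w : ℝ in 𝓝[>] 0, ε * (κ * Real.log w) - K ≤ ε * Real.log ‖F (1 + w)‖)
    (m : ℤ) (hm : meromorphicOrderAt F 1 = m) : ε * (m - κ) ≤ 0 := by
  obtain ⟨C3, hC3⟩ := Pool.Agent.H341R2.log_norm_meromorphic hF hm
  by_contra hcon
  push Not at hcon
  have hbot : Tendsto (fun w : ℝ => Real.log w) (𝓝[>] 0) atBot := Real.tendsto_log_nhdsGT_zero
  have hev : ∀ᶠ w : ℝ in 𝓝[>] 0, ε * (m - κ) * Real.log w < -(K + |C3|) := by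
    have := hbot.const_mul_atBot hcon
    exact this.eventually (eventually_lt_atBot _)
  obtain ⟨w, hw1, hw2, hw3⟩ := (hK.and (hC3.and hev)).exists
  have h5 := hw2.2
  have h6 := le_abs_self C3
  have h7 := abs_le.1 h5
  have e2 : ε * (m - κ) * Real.log w = ε * (m * Real.log w) - ε * (κ * Real.log w) := by ring
  rw [e2] at hw3
  rcases hε with h | h
  · rw [h] at hw1 hw3
    linarith [h7.1, h7.2]
  · rw [h] at hw1 hw3
    linarith [h7.1, h7.2]

theorem order_finiteR (h : Loc LL ell A) {F : ℂ → ℂ} (hF : ∀ σ : ℝ, 1 < σ → AnalyticAt ℂ F σ)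
    (hF1 : MeromorphicAt F 1)
    (hprod : ∀ s : ℂ, 3 / 2 < s.re → HasProd (fun p : ℕ => exp (LL p s)) (F s)) :
    ∃ m : ℤ, meromorphicOrderAt F 1 = m := by
  have h1 : meromorphicOrderAt F 1 ≠ ⊤ := by
    intro htop
    rw [meromorphicOrderAt_eq_top_iff] at htop
    have h2 := eventually_eventually_nhdsWithin.2 htop
    have hpath : Tendsto (fun w : ℝ => ((1 + w : ℝ) : ℂ)) (𝓝[>] 0) (𝓝[≠] (1 : ℂ)) := by
      apply tendsto_nhdsWithin_of_tendsto_nhds_of_eventually_within
      · have : ContinuousAt (fun w : ℝ => ((1 + w : ℝ) : ℂ)) 0 := by fun_prop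
        have h3 := this.tendsto
        simp only [add_zero, ofReal_one] at h3
        exact h3.mono_left nhdsWithin_le_nhds
      · filter_upwards [self_mem_nhdsWithin] with w hw
        have hw' : (0 : ℝ) < w := hw
        intro hcon
        have h4 : ((1 + w : ℝ) : ℂ) = ((1 : ℝ) : ℂ) := by simpa using hcon
        have h5 : (1 + w : ℝ) = 1 := by exact_mod_cast h4
        linarith
    obtain ⟨w, hw1, hw2⟩ := ((hpath.eventually h2).and self_mem_nhdsWithin).exists
    have hw : (0 : ℝ) < w := hw2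
    have hne : ((1 + w : ℝ) : ℂ) ≠ 1 := by
      intro hcon
      have h4 : ((1 + w : ℝ) : ℂ) = ((1 : ℝ) : ℂ) := by simpa using hcon
      have h5 : (1 + w : ℝ) = 1 := by exact_mod_cast h4
      linarith
    have h6 : ∀ᶠ z in 𝓝 ((1 + w : ℝ) : ℂ), F z = 0 := by
      rwa [isOpen_compl_singleton.nhdsWithin_eq (show ((1 + w : ℝ) : ℂ) ∈ ({1}ᶜ : Set ℂ) from hne)] at hw1
    have hS : IsPreconnected ((fun σ : ℝ => (σ : ℂ)) '' Set.Ioi 1) :=
      isPreconnected_Ioi.image _ Complex.continuous_ofReal.continuousOn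
    have h7 := AnalyticOnNhd.eqOn_zero_of_preconnected_of_eventuallyEq_zero (𝕜 := ℂ) (f := F)
      (U := (fun σ : ℝ => (σ : ℂ)) '' Set.Ioi 1) (z₀ := ((1 + w : ℝ) : ℂ)) (by
        rintro z ⟨σ, hσ, rfl⟩
        exact hF σ hσ) hS ⟨1 + w, by show (1 : ℝ) < 1 + w; linarith, rfl⟩ h6
    have h8 := h7 (x := (2 : ℂ)) ⟨2, by show (1 : ℝ) < 2; norm_num, by norm_num⟩
    have h9 := prod_eq h (s := 2) (by norm_num) (hprod 2 (by norm_num))
    rw [h8] at h9
    exact Complex.exp_ne_zero _ h9.symm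
  exact ⟨(meromorphicOrderAt F 1).untop h1, (WithTop.coe_untop _ h1).symm⟩

/-- The final theorem. `g` is any sequence at bounded distance from `lE ell`. -/
theorem mainR (h : Loc LL ell A) {F : ℂ → ℂ} (hF : ∀ σ : ℝ, 1 < σ → AnalyticAt ℂ F σ)
    (hF1 : MeromorphicAt F 1)
    (hprod : ∀ s : ℂ, 3 / 2 < s.re → HasProd (fun p : ℕ => exp (LL p s)) (F s))
    (g : ℕ → ℝ) (B : ℝ) (hg : ∀ n, |g n - lE ell n| ≤ B) :
    ∃ m : ℤ, meromorphicOrderAt F 1 = m ∧
    (∀ κ : ℝ, (κ < m ∨ ¬ Ext F) → ∀ C : ℝ,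
      (∃ᶠ x : ℕ in atTop, C < Gen.LA g κ x) ∧
      ∃ᶠ x : ℕ in atTop, C < g x - κ * Real.log (Real.log x)) ∧
    ((∀ σ : ℝ, 1 < σ → F σ ≠ 0) →
      ∀ κ : ℝ, ((m : ℝ) < κ ∨ ¬ Ext F) → ∀ C : ℝ,
      (∃ᶠ x : ℕ in atTop, Gen.LA g κ x < C) ∧
      ∃ᶠ x : ℕ in atTop, g x - κ * Real.log (Real.log x) < C) := by
  obtain ⟨m, hm⟩ := order_finiteR h hF hF1 hprod
  have hlog : ∀ᶠ x : ℕ in atTop, (1 : ℝ) < Real.log x :=
    (Real.tendsto_log_atTop.comp tendsto_natCast_atTop_atTop).eventually_gt_atTop _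
  have hB : 0 ≤ B := (abs_nonneg _).trans (hg 0)
  -- comparison of the averages
  have hsumle : ∀ x : ℕ, 1 ≤ x → ∑ n ∈ Finset.Icc 2 x, (1 : ℝ) / n ≤ Real.log x := by
    intro x hx
    induction x, hx using Nat.le_induction with
    | base => simp
    | succ n hn ih =>
      rw [Finset.sum_Icc_succ_top (by omega)]
      have hn0 : (0 : ℝ) < (n : ℝ) := by exact_mod_cast hn
      have h1 : 1 / ((n + 1 : ℕ) : ℝ) ≤ Real.log ((n + 1 : ℕ) : ℝ) - Real.log n := by
        have h2 := Real.one_sub_inv_le_log_of_pos (x := ((n + 1 : ℕ) : ℝ) / n) (by positivity)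
        rw [Real.log_div (by positivity) hn0.ne'] at h2
        have e : 1 - (((n + 1 : ℕ) : ℝ) / n)⁻¹ = 1 / ((n + 1 : ℕ) : ℝ) := by
          push_cast
          field_simp
          ring
        linarith
      linarith
  have hcmp : ∀ (κ : ℝ) (x : ℕ), 1 ≤ x →
      |(∑ n ∈ Finset.Icc 2 x, (g n - κ * Real.log (Real.log n)) / n) -
        ∑ n ∈ Finset.Icc 2 x, (lE ell n - κ * Real.log (Real.log n)) / n| ≤ B * Real.log x := by
    intro κ x hx
    rw [← Finset.sum_sub_distrib]
    calc |∑ n ∈ Finset.Icc 2 x, ((g n - κ * Real.log (Real.log n)) / n -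
          (lE ell n - κ * Real.log (Real.log n)) / n)|
        ≤ ∑ n ∈ Finset.Icc 2 x, |(g n - κ * Real.log (Real.log n)) / n -
          (lE ell n - κ * Real.log (Real.log n)) / n| := Finset.abs_sum_le_sum_abs _ _
      _ ≤ ∑ n ∈ Finset.Icc 2 x, B * (1 / n) := by
          refine Finset.sum_le_sum fun n hn => ?_
          have hn0 : (0 : ℝ) < n := by
            have := (Finset.mem_Icc.1 hn).1
            exact_mod_cast (by omega : 0 < n)
          rw [← sub_div, abs_div, abs_of_pos hn0, div_eq_mul_one_div]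
          refine mul_le_mul_of_nonneg_right ?_ (by positivity)
          have := hg n
          have e : g n - κ * Real.log (Real.log n) - (lE ell n - κ * Real.log (Real.log n)) =
            g n - lE ell n := by ring
          rwa [e]
      _ = B * ∑ n ∈ Finset.Icc 2 x, (1 : ℝ) / n := by rw [Finset.mul_sum]
      _ ≤ _ := mul_le_mul_of_nonneg_left (hsumle x hx) hB
  refine ⟨m, hm, fun κ hκ C => ⟨?_, ?_⟩, fun hreal κ hκ C => ⟨?_, ?_⟩⟩
  · by_contra hcon
    rw [Filter.not_frequently] at hcon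
    obtain ⟨C', hC'⟩ := exists_const2 h 1 κ (Or.inl rfl) (C + B) (by
      filter_upwards [hcon, hlog, eventually_ge_atTop 1] with n hn1 hn2 hn3
      push Not at hn1
      unfold Gen.LA at hn1
      rw [div_le_iff₀ (by linarith)] at hn1
      have := (abs_le.1 (hcmp κ n hn3)).1
      rw [one_mul]
      linarith)
    obtain ⟨h1, K, hK⟩ := main_absR2 h 1 κ C' (Or.inl rfl) hC' F hF hprod (by norm_num)
    have h2 := order_of_boundR hF1 1 κ K (Or.inl rfl) hK m hm
    rcases hκ with h3 | h3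
    · linarith
    · exact h3 h1
  · by_contra hcon
    rw [Filter.not_frequently] at hcon
    obtain ⟨C', hC'⟩ := exists_const h 1 κ (Or.inl rfl) (C + B) (by
      filter_upwards [hcon] with n hn1
      push Not at hn1
      have := (abs_le.1 (hg n)).1
      linarith)
    obtain ⟨h1, K, hK⟩ := main_absR h 1 κ C' (Or.inl rfl) hC' F hF hprod (by norm_num)
    have h2 := order_of_boundR hF1 1 κ K (Or.inl rfl) hK m hm
    rcases hκ with h3 | h3
    · linarith
    · exact h3 h1
  · by_contra hcon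
    rw [Filter.not_frequently] at hcon
    obtain ⟨C', hC'⟩ := exists_const2 h (-1) κ (Or.inr rfl) (-C + B) (by
      filter_upwards [hcon, hlog, eventually_ge_atTop 1] with n hn1 hn2 hn3
      push Not at hn1
      unfold Gen.LA at hn1
      rw [le_div_iff₀ (by linarith)] at hn1
      have := (abs_le.1 (hcmp κ n hn3)).2
      linarith)
    obtain ⟨h1, K, hK⟩ := main_absR2 h (-1) κ C' (Or.inr rfl) hC' F hF hprod (fun _ => hreal)
    have h2 := order_of_boundR hF1 (-1) κ K (Or.inr rfl) hK m hm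
    rcases hκ with h3 | h3
    · linarith
    · exact h3 h1
  · by_contra hcon
    rw [Filter.not_frequently] at hcon
    obtain ⟨C', hC'⟩ := exists_const h (-1) κ (Or.inr rfl) (-C + B) (by
      filter_upwards [hcon] with n hn1
      push Not at hn1
      have := (abs_le.1 (hg n)).2
      linarith)
    obtain ⟨h1, K, hK⟩ := main_absR h (-1) κ C' (Or.inr rfl) hC' F hF hprod (fun _ => hreal)
    have h2 := order_of_boundR hF1 (-1) κ K (Or.inr rfl) hK m hm
    rcases hκ with h3 | h3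
    · linarith
    · exact h3 h1

end Pool.Agent.H480R3.Seg
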