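import Pool.Agent.H480R3.Seg.Two
import Pool.Agent.H480R3.Seg.Fin
import Pool.Agent.H438R3.BSD.Gen3

/-! The one-sided theorem for Euler factors `∏_j det(1 - λ_j p^(-s) M_p)⁻¹` with matrices `M_p` of
finite order (helper480). -/

set_option autoImplicit false

open Complex Filter Topology Finset

namespace Pool.Agent.H480R3.Seg

open Pool.Agent.H438R3.BSD Pool.Agent.H438R3.BSD.Gen

section

variable {n r : ℕ} (good : ℕ → Prop) (M : ℕ → Matrix (Fin n) (Fin n) ℂ) (lam : ℕ → Fin r → ℂ)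

/-- traces of powers of Frobenius -/
noncomputable def cM (p m : ℕ) : ℝ := ((M p ^ m).trace * ∑ j, lam p j ^ m).re

/-- the polynomial of Frobenius at `z` -/
noncomputable def fac (p : ℕ) (z : ℂ) : ℂ := ∏ j, (1 - (lam p j * z) • M p).det

open Classical in
/-- the product of the absolute values of the polynomials of Frobenius at `1 / p` -/
noncomputable def EPM (x : ℕ) : ℝ :=
  ∏ p ∈ Finset.Icc 1 x, if good p then ‖fac M lam p (p : ℂ)⁻¹‖ else 1

variable {good M lam} {N : ℕ}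

lemma fac_eq (hN : 0 < N) (hM : ∀ p, good p → M p ^ N = 1)
    (hlam : ∀ p, good p → ∀ j, ‖lam p j‖ = (p : ℝ) ^ (1 / 2 : ℝ)) {p : ℕ} (hp : good p) (z : ℂ)
    (hz : (p : ℝ) ^ (1 / 2 : ℝ) * ‖z‖ < 1) :
    ∃ S : ℂ, HasSum (fun m : ℕ => (M p ^ (m + 1)).trace * (∑ j, lam p j ^ (m + 1)) * z ^ (m + 1) /
      (m + 1 : ℂ)) S ∧ fac M lam p z = Complex.exp (-S) := by
  have h1 : ∀ j, ‖lam p j * z‖ < 1 := by
    intro j
    rw [norm_mul, hlam p hp]
    exact hz
  choose S hS1 hS2 using fun j => det_eq_exp (M p) N hN (hM p hp) (lam p j * z) (h1 j)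
  refine ⟨∑ j, S j, ?_, ?_⟩
  · have h3 := hasSum_sum (s := Finset.univ) (fun j _ => hS1 j)
    have e : (fun m : ℕ => (M p ^ (m + 1)).trace * (∑ j, lam p j ^ (m + 1)) * z ^ (m + 1) /
        (m + 1 : ℂ)) = fun m : ℕ => ∑ j, (M p ^ (m + 1)).trace * (lam p j * z) ^ (m + 1) /
          (m + 1 : ℂ) := by
      funext m
      rw [Finset.mul_sum, Finset.sum_mul, Finset.sum_div]
      refine Finset.sum_congr rfl fun j _ => ?_
      rw [mul_pow]; ring
    rw [e]; exact h3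
  · unfold fac
    rw [Finset.prod_congr rfl fun j _ => hS2 j, ← Complex.exp_sum, Finset.sum_neg_distrib]

lemma cM_eq (him : ∀ p, good p → ∀ m, ((M p ^ m).trace * ∑ j, lam p j ^ m).im = 0) {p : ℕ}
    (hp : good p) (m : ℕ) : (cM M lam p m : ℂ) = (M p ^ m).trace * ∑ j, lam p j ^ m := by
  apply Complex.ext
  · simp [cM]
  · rw [him p hp m]; simp

lemma cM_le (hN : 0 < N) (hM : ∀ p, good p → M p ^ N = 1)
    (hlam : ∀ p, good p → ∀ j, ‖lam p j‖ = (p : ℝ) ^ (1 / 2 : ℝ)) (p : ℕ) (hp : good p) (m : ℕ) :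
    |cM M lam p m| ≤ (n * r : ℝ) * (p : ℝ) ^ ((m : ℝ) / 2) := by
  have hp0 : (0 : ℝ) ≤ p := by positivity
  unfold cM
  refine (Complex.abs_re_le_norm _).trans ?_
  rw [norm_mul, mul_assoc]
  refine mul_le_mul (norm_trace_le _ N hN (hM p hp) m) ?_ (norm_nonneg _) (by positivity)
  refine (norm_sum_le _ _).trans ?_
  have : ∀ j, ‖lam p j ^ m‖ = (p : ℝ) ^ ((m : ℝ) / 2) := by
    intro j
    rw [norm_pow, hlam p hp, ← Real.rpow_natCast, ← Real.rpow_mul hp0]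
    congr 1; ring
  simp [this]

open Classical in
lemma log_EPM (hgood : ∀ p, good p → p.Prime) (hN : 0 < N) (hM : ∀ p, good p → M p ^ N = 1)
    (hlam : ∀ p, good p → ∀ j, ‖lam p j‖ = (p : ℝ) ^ (1 / 2 : ℝ))
    (him : ∀ p, good p → ∀ m, ((M p ^ m).trace * ∑ j, lam p j ^ m).im = 0) (x : ℕ) :
    0 < EPM good M lam x ∧ Real.log (EPM good M lam x) = lE (ellc good (cM M lam)) x := by
  have key : ∀ p, good p → 0 < ‖fac M lam p (p : ℂ)⁻¹‖ ∧
      Real.log ‖fac M lam p (p : ℂ)⁻¹‖ =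
        -∑' m : ℕ, cM M lam p (m + 1) * (p : ℝ) ^ (-((m : ℝ) + 1)) / ((m : ℝ) + 1) := by
    intro p hp
    have hp1 : (1 : ℝ) < p := by exact_mod_cast (hgood p hp).one_lt
    have hp0 : (0 : ℝ) < p := by linarith
    have hz : (p : ℝ) ^ (1 / 2 : ℝ) * ‖(p : ℂ)⁻¹‖ < 1 := by
      rw [norm_inv, Complex.norm_natCast, ← div_eq_mul_inv, div_lt_one hp0]
      calc (p : ℝ) ^ (1 / 2 : ℝ) < (p : ℝ) ^ (1 : ℝ) := Real.rpow_lt_rpow_of_exponent_lt hp1 (by norm_num)
        _ = p := Real.rpow_one _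
    obtain ⟨S, hS1, hS2⟩ := fac_eq hN hM hlam hp (p : ℂ)⁻¹ hz
    have h1 : HasSum (fun m : ℕ => cM M lam p (m + 1) * (p : ℝ) ^ (-((m : ℝ) + 1)) / ((m : ℝ) + 1)) S.re := by
      have h2 := Complex.hasSum_re hS1
      have e : (fun m : ℕ => cM M lam p (m + 1) * (p : ℝ) ^ (-((m : ℝ) + 1)) / ((m : ℝ) + 1)) =
          fun m : ℕ => ((M p ^ (m + 1)).trace * (∑ j, lam p j ^ (m + 1)) * (p : ℂ)⁻¹ ^ (m + 1) /
            (m + 1 : ℂ)).re := by
        funext m
        rw [← cM_eq him hp (m + 1)]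
        have e3 : (p : ℝ) ^ (-((m : ℝ) + 1)) = (p : ℝ)⁻¹ ^ (m + 1) := by
          rw [Real.rpow_neg hp0.le, inv_pow]
          congr 1
          have : (m : ℝ) + 1 = ((m + 1 : ℕ) : ℝ) := by push_cast; rfl
          rw [this, Real.rpow_natCast]
        rw [e3]
        have e4 : ((cM M lam p (m + 1) : ℂ)) * (p : ℂ)⁻¹ ^ (m + 1) / (m + 1 : ℂ) =
            ((cM M lam p (m + 1) * (p : ℝ)⁻¹ ^ (m + 1) / ((m : ℝ) + 1) : ℝ) : ℂ) := by
          push_cast; ring
        rw [e4, Complex.ofReal_re]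
      rw [e]; exact h2
    rw [hS2, Complex.norm_exp, h1.tsum_eq]
    exact ⟨Real.exp_pos _, by rw [Real.log_exp, Complex.neg_re]⟩
  have hpos : ∀ p ∈ Finset.Icc 1 x, 0 < (if good p then ‖fac M lam p (p : ℂ)⁻¹‖ else 1) := by
    intro p _
    split_ifs with h
    · exact (key p h).1
    · exact one_pos
  refine ⟨Finset.prod_pos hpos, ?_⟩
  unfold EPM lE
  rw [Real.log_prod fun p hp => (hpos p hp).ne']
  refine Finset.sum_congr rfl fun p _ => ?_
  unfold ellc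
  split_ifs with h
  · exact (key p h).2
  · exact Real.log_one

open Classical in
lemma prodM (hgood : ∀ p, good p → p.Prime) (hN : 0 < N) (hM : ∀ p, good p → M p ^ N = 1)
    (hlam : ∀ p, good p → ∀ j, ‖lam p j‖ = (p : ℝ) ^ (1 / 2 : ℝ))
    (him : ∀ p, good p → ∀ m, ((M p ^ m).trace * ∑ j, lam p j ^ m).im = 0) {F : ℂ → ℂ}
    {s : ℂ} (hs : 3 / 2 < s.re)
    (hF : HasProd (fun p : ℕ => if good p then (fac M lam p ((p : ℂ) ^ (-s)))⁻¹ else 1) (F s)) :
    HasProd (fun p : ℕ => exp (LLc good (cM M lam) p s)) (F s) := by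
  suffices e : (fun p : ℕ => exp (LLc good (cM M lam) p s)) =
      fun p : ℕ => if good p then (fac M lam p ((p : ℂ) ^ (-s)))⁻¹ else 1 by
    rw [e]; exact hF
  funext p
  symm
  unfold LLc
  split_ifs with h
  · have hp1 : (1 : ℝ) < p := by exact_mod_cast (hgood p h).one_lt
    have hp0 : (0 : ℝ) < p := by linarith
    have hpc : (p : ℂ) ≠ 0 := by exact_mod_cast hp0.ne'
    have hz : (p : ℝ) ^ (1 / 2 : ℝ) * ‖(p : ℂ) ^ (-s)‖ < 1 := by
      rw [Complex.norm_natCast_cpow_of_pos (hgood p h).pos, ← Real.rpow_add hp0]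
      apply Real.rpow_lt_one_of_one_lt_of_neg hp1
      rw [Complex.neg_re]; linarith
    obtain ⟨S, hS1, hS2⟩ := fac_eq hN hM hlam h _ hz
    rw [hS2, ← Complex.exp_neg, neg_neg, ← hS1.tsum_eq]
    congr 1
    refine tsum_congr fun m => ?_
    rw [cM_eq him h]
    congr 2
    rw [← Complex.cpow_nat_mul]
    congr 1
    push_cast; ring
  · rw [Complex.exp_zero]

/-- The theorem. -/
theorem mainM (hgood : ∀ p, good p → p.Prime) (hN : 0 < N) (hM : ∀ p, good p → M p ^ N = 1)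
    (hlam : ∀ p, good p → ∀ j, ‖lam p j‖ = (p : ℝ) ^ (1 / 2 : ℝ))
    (him : ∀ p, good p → ∀ m, ((M p ^ m).trace * ∑ j, lam p j ^ m).im = 0) {F : ℂ → ℂ}
    (hF1 : ∀ σ : ℝ, 1 ≤ σ → MeromorphicAt F σ)
    (hprod : open Classical in ∀ s : ℂ, 3 / 2 < s.re →
      HasProd (fun p : ℕ => if good p then (fac M lam p ((p : ℂ) ^ (-s)))⁻¹ else 1) (F s)) :
    ∃ m : ℤ, meromorphicOrderAt F 1 = m ∧
    ((∀ σ : ℝ, 1 < σ → AnalyticAt ℂ F σ) → ∀ κ : ℝ, (κ < m ∨ ¬ Ext F) → ∀ C : ℝ,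
      (∃ᶠ x : ℕ in atTop, C < Gen.LA (fun x => Real.log (EPM good M lam x)) κ x) ∧
      ∃ᶠ x : ℕ in atTop, C * Real.log x ^ κ < EPM good M lam x) ∧
    ((∀ σ : ℝ, 1 < σ → AnalyticAt ℂ (fun s => (F s)⁻¹) σ) →
      ∀ κ : ℝ, ((m : ℝ) < κ ∨ ¬ Ext F) → ∀ C : ℝ, 0 < C →
      (∃ᶠ x : ℕ in atTop, Gen.LA (fun x => Real.log (EPM good M lam x)) κ x < -C) ∧
      ∃ᶠ x : ℕ in atTop, EPM good M lam x < C * Real.log x ^ κ) := by
  classical
  have hloc := locC (good := good) (c := cM M lam) (K := (n * r : ℝ)) hgood (by positivity)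
    (fun p hp m _ => cM_le hN hM hlam p hp m)
  have hlogE := fun x => log_EPM hgood hN hM hlam him x
  have hprod' : ∀ s : ℂ, 3 / 2 < s.re → HasProd (fun p : ℕ => exp (LLc good (cM M lam) p s)) (F s) :=
    fun s hs => prodM hgood hN hM hlam him hs (hprod s hs)
  have hF11 : MeromorphicAt F 1 := by
    have := hF1 1 le_rfl
    rwa [Complex.ofReal_one] at this
  obtain ⟨m, hm⟩ := order_finiteM hloc hF1 hprod'
  have hg : ∀ k, |(fun x => Real.log (EPM good M lam x)) k - lE (ellc good (cM M lam)) k| ≤ 0 :=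
    fun k => by simp only; rw [(hlogE k).2]; simp
  have hlog : ∀ᶠ x : ℕ in atTop, (1 : ℝ) < Real.log x :=
    (Real.tendsto_log_atTop.comp tendsto_natCast_atTop_atTop).eventually_gt_atTop _
  refine ⟨m, hm, fun hF κ hκ C => ⟨(mainA hloc hF hF11 hprod' _ 0 hg m hm κ hκ C).1, ?_⟩,
    fun hF κ hκ C hC => ⟨(mainB hloc hF hF11 hprod' _ 0 hg m hm κ hκ (-C)).1, ?_⟩⟩
  · refine ((mainA hloc hF hF11 hprod' _ 0 hg m hm κ hκ (Real.log |C|)).2.and_eventually
      hlog).mono fun x hx => ?_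
    obtain ⟨hx1, hx2⟩ := hx
    have h3 : 0 < Real.log (x : ℝ) ^ κ := Real.rpow_pos_of_pos (by linarith) _
    have hpos := (hlogE x).1
    rcases le_or_gt C 0 with hC | hC
    · have h4 := mul_nonpos_of_nonpos_of_nonneg hC h3.le
      linarith
    · rw [abs_of_pos hC] at hx1
      have h5 : Real.log (C * Real.log x ^ κ) < Real.log (EPM good M lam x) := by
        rw [Real.log_mul hC.ne' h3.ne', Real.log_rpow (by linarith)]
        linarith
      exact (Real.log_lt_log_iff (by positivity) hpos).1 h5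
  · refine ((mainB hloc hF hF11 hprod' _ 0 hg m hm κ hκ (Real.log C)).2.and_eventually
      hlog).mono fun x hx => ?_
    obtain ⟨hx1, hx2⟩ := hx
    have h3 : 0 < Real.log (x : ℝ) ^ κ := Real.rpow_pos_of_pos (by linarith) _
    have hpos := (hlogE x).1
    have h5 : Real.log (EPM good M lam x) < Real.log (C * Real.log x ^ κ) := by
      rw [Real.log_mul hC.ne' h3.ne', Real.log_rpow (by linarith)]
      linarith
    exact (Real.log_lt_log_iff hpos (by positivity)).1 h5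

end

end Pool.Agent.H480R3.Seg
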