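import Pool.Agent.H480R3.Seg.Artin
import Pool.Agent.H438R3.BSD.Main

/-! Odd symmetric powers of elliptic curves twisted by Artin motives (helper480). -/

set_option autoImplicit false

open Complex Filter Topology Finset NumberField

namespace Pool.Agent.H480R3.Seg.Sym

open Pool.Agent.H438R3.BSD

/-- `p` is a prime not dividing `2 (-4 a³ - 27 b²)` nor the discriminant of `K` -/
def GoodP (K : Type) [Field K] [NumberField K] (a b : ℤ) (p : ℕ) : Prop :=
  Good a b p ∧ ¬ (p : ℤ) ∣ discr K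

/-- the eigenvalues of Frobenius on `Sym^(2 j + 1) H^1(E)`, divided by `p^j` -/
noncomputable def eig (a b : ℤ) (j p : ℕ) (i : Fin (2 * j + 2)) : ℂ :=
  al a b p ^ (2 * j + 1 - (i : ℕ)) * starRingEnd ℂ (al a b p) ^ (i : ℕ) / (p : ℂ) ^ j

variable {K : Type} [Field K] [NumberField K] {n : ℕ} (a b : ℤ) (j : ℕ)
  (ρ : (K ≃ₐ[ℚ] K) →* Matrix.GeneralLinearGroup (Fin n) ℂ) (frob : ℕ → (K ≃ₐ[ℚ] K))

/-- the polynomial of Frobenius on `Sym^(2 j + 1) H^1(E)(j) ⊗ ρ` -/
noncomputable def pol (p : ℕ) (z : ℂ) : ℂ :=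
  ∏ i, (1 - (eig a b j p i * z) • (ρ (frob p) : Matrix (Fin n) (Fin n) ℂ)).det

open Classical in
/-- for `Re s > 1/2`, `L s` is the L-function of the motive `M = Sym^(2 j + 1) h^1(E)(j + 1) ⊗ ρ`,
without the Euler factors at the bad primes -/
def IsL (L : ℂ → ℂ) : Prop :=
  ∀ s : ℂ, 1 / 2 < s.re →
    HasProd (fun p : ℕ => if GoodP K a b p then (pol a b j ρ frob p ((p : ℂ) ^ (-(s + 1))))⁻¹ else 1)
      (L s)

open Classical in
/-- the product of the numbers `|P_p(1)|` over the good primes `p ≤ x`, where `P_p` is the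
polynomial of Frobenius on `M` -/
noncomputable def EP (x : ℕ) : ℝ :=
  ∏ p ∈ Finset.Icc 1 x, if GoodP K a b p then ‖pol a b j ρ frob p (p : ℂ)⁻¹‖ else 1

/-- the logarithmic average of `log EP(n) - κ log log n` over `2 ≤ n ≤ x` -/
noncomputable def LA (κ : ℝ) (x : ℕ) : ℝ :=
  (∑ n ∈ Finset.Icc 2 x, (Real.log (EP a b j ρ frob n) - κ * Real.log (Real.log n)) / n) /
    Real.log x

/-- `L` has a holomorphic continuation without zeros from `Re s > 1/2` to `Re s > 0` -/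
def Ext (L : ℂ → ℂ) : Prop :=
  ∃ L' : ℂ → ℂ, DifferentiableOn ℂ L' {s | 0 < s.re} ∧ (∀ s, 0 < s.re → L' s ≠ 0) ∧
    ∀ s, 1 / 2 < s.re → L' s = L s

lemma fac_pol (p : ℕ) (z : ℂ) :
    fac (Artin.MM ρ frob) (eig a b j) p z = pol a b j ρ frob p z := rfl

lemma eig_norm {p : ℕ} (hp : Good a b p) (i : Fin (2 * j + 2)) :
    ‖eig a b j p i‖ = (p : ℝ) ^ (1 / 2 : ℝ) := by
  have hp0 : (0 : ℝ) < p := by exact_mod_cast hp.1.pos
  unfold eig
  rw [norm_div, norm_mul, norm_pow, norm_pow, RCLike.norm_conj, al_norm hp, ← pow_add, norm_pow,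
    Complex.norm_natCast]
  have e : 2 * j + 1 - (i : ℕ) + (i : ℕ) = 2 * j + 1 := by have := i.2; omega
  rw [e, pow_succ, pow_mul]
  have e2 : ((p : ℝ) ^ (1 / 2 : ℝ)) ^ 2 = p := by
    rw [← Real.rpow_natCast, ← Real.rpow_mul hp0.le]; norm_num
  rw [e2]
  field_simp

lemma eig_conj (p : ℕ) (i : Fin (2 * j + 2)) :
    starRingEnd ℂ (eig a b j p i) = eig a b j p (Fin.rev i) := by
  unfold eig
  rw [map_div₀, map_mul, map_pow, map_pow, Complex.conj_conj, map_pow, Complex.conj_natCast]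
  have e1 : ((Fin.rev i : Fin (2 * j + 2)) : ℕ) = 2 * j + 1 - (i : ℕ) := by
    rw [Fin.val_rev]; omega
  have e2 : 2 * j + 1 - (2 * j + 1 - (i : ℕ)) = i := by have := i.2; omega
  rw [e1, e2, mul_comm]

lemma sum_im (p m : ℕ) : (∑ i, eig a b j p i ^ m).im = 0 := by
  rw [← Complex.conj_eq_iff_im, map_sum]
  simp_rw [map_pow, eig_conj]
  exact Equiv.sum_comp Fin.revPerm (fun i => eig a b j p i ^ m)

variable {a b j ρ frob}

lemma im_zero (hρ : ∀ g, (ρ g : Matrix (Fin n) (Fin n) ℂ).trace.im = 0) (p : ℕ) (m : ℕ) :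
    ((Artin.MM ρ frob p ^ m).trace * ∑ i, eig a b j p i ^ m).im = 0 := by
  have h1 : (Artin.MM ρ frob p ^ m).trace.im = 0 := by
    unfold Artin.MM
    rw [← Units.val_pow_eq_pow_val, ← map_pow]
    exact hρ _
  rw [Complex.mul_im, h1, sum_im]
  ring

open Classical in
lemma EP_eq (x : ℕ) : EPM (GoodP K a b) (Artin.MM ρ frob) (eig a b j) x = EP a b j ρ frob x := rfl

lemma LA_eq (κ : ℝ) (x : ℕ) :
    Gen.LA (fun x => Real.log (EPM (GoodP K a b) (Artin.MM ρ frob) (eig a b j) x)) κ x =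
      LA a b j ρ frob κ x := rfl

/-- shifting the half planes -/
lemma Ext_of {L : ℂ → ℂ} (h : Pool.Agent.H480R3.Seg.Ext (fun s => L (s + -1))) : Ext L := by
  obtain ⟨F', h1, h2, h3⟩ := h
  refine ⟨fun s => F' (s + 1), ?_, ?_, ?_⟩
  · refine h1.comp (by fun_prop) ?_
    intro s hs
    have hs' : 0 < s.re := hs
    show 1 < (s + 1).re
    rw [Complex.add_re, Complex.one_re]
    linarith
  · intro s hs
    refine h2 _ ?_
    rw [Complex.add_re, Complex.one_re]
    linarith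
  · intro s hs
    have h4 := h3 (s + 1) (by
      rw [Complex.add_re, Complex.one_re]
      linarith)
    simp only at h4 ⊢
    rw [h4]
    congr 1
    ring

theorem main (hρ : ∀ g, (ρ g : Matrix (Fin n) (Fin n) ℂ).trace.im = 0) {L : ℂ → ℂ}
    (hL : IsL a b j ρ frob L) (hmero : ∀ σ : ℝ, 0 ≤ σ → MeromorphicAt L σ) :
    ∃ m : ℤ, meromorphicOrderAt L 0 = m ∧
    ((∀ σ : ℝ, 0 < σ → AnalyticAt ℂ L σ) → ∀ κ : ℝ, (κ < m ∨ ¬ Ext L) → ∀ C : ℝ,
      (∃ᶠ x : ℕ in atTop, C < LA a b j ρ frob κ x) ∧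
      ∃ᶠ x : ℕ in atTop, C * Real.log x ^ κ < EP a b j ρ frob x) ∧
    ((∀ σ : ℝ, 0 < σ → AnalyticAt ℂ (fun s => (L s)⁻¹) σ) →
      ∀ κ : ℝ, ((m : ℝ) < κ ∨ ¬ Ext L) → ∀ C : ℝ, 0 < C →
      (∃ᶠ x : ℕ in atTop, LA a b j ρ frob κ x < -C) ∧
      ∃ᶠ x : ℕ in atTop, EP a b j ρ frob x < C * Real.log x ^ κ) := by
  classical
  have hcard : 0 < Nat.card (K ≃ₐ[ℚ] K) := Nat.card_pos
  have hcast : ∀ σ : ℝ, ((σ - 1 : ℝ) : ℂ) = (σ : ℂ) + -1 := by
    intro σ; push_cast; ring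
  obtain ⟨m, hm, h1, h2⟩ := mainM (good := GoodP K a b) (M := Artin.MM ρ frob) (lam := eig a b j)
    (F := fun s => L (s + -1)) (fun p hp => hp.1.1) hcard (fun p _ => Artin.MM_pow ρ frob p)
    (fun p hp i => eig_norm a b j hp.1 i) (fun p _ m => im_zero hρ p m)
    (by
      intro σ hσ
      have h0 := hmero (σ - 1) (by linarith)
      rw [hcast] at h0
      exact meromorphicAt_fun_comp_add_const_iff_meromorphicAt.2 h0)
    (by
      intro s hs
      have h0 := hL (s + -1) (by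
        rw [Complex.add_re]
        norm_num
        linarith)
      suffices e : (fun p : ℕ => if GoodP K a b p then
          (fac (Artin.MM ρ frob) (eig a b j) p ((p : ℂ) ^ (-s)))⁻¹ else 1) =
          fun p : ℕ => if GoodP K a b p then
            (pol a b j ρ frob p ((p : ℂ) ^ (-(s + -1 + 1))))⁻¹ else 1 by
        rw [e]; exact h0
      funext p
      rw [fac_pol]
      have e2 : s + -1 + 1 = s := by ring
      rw [e2])
  refine ⟨m, ?_, ?_, ?_⟩
  · have e := meromorphicOrderAt_comp_add_const_eq_meromorphicOrderAt (𝕜 := ℂ) (x := (1 : ℂ))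
      (c := -1) (f := L)
    have e2 : (1 : ℂ) + -1 = 0 := by ring
    rw [e2] at e
    rw [← e]
    exact hm
  · intro hreal κ hκ C
    have hκ' : κ < m ∨ ¬ Pool.Agent.H480R3.Seg.Ext (fun s => L (s + -1)) :=
      hκ.imp id fun h h' => h (Ext_of h')
    have h3 := h1 (fun σ hσ => by
      have h0 := hreal (σ - 1) (by linarith)
      rw [hcast] at h0
      exact AnalyticAt.comp (g := L) (f := fun s : ℂ => s + -1) h0 (by fun_prop)) κ hκ' C
    simp_rw [LA_eq, EP_eq] at h3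
    exact h3
  · intro hreal κ hκ C hC
    have hκ' : (m : ℝ) < κ ∨ ¬ Pool.Agent.H480R3.Seg.Ext (fun s => L (s + -1)) :=
      hκ.imp id fun h h' => h (Ext_of h')
    have h3 := h2 (fun σ hσ => by
      have h0 := hreal (σ - 1) (by linarith)
      rw [hcast] at h0
      exact AnalyticAt.comp (g := fun s => (L s)⁻¹) (f := fun s : ℂ => s + -1) h0
        (by fun_prop)) κ hκ' C hC
    simp_rw [LA_eq, EP_eq] at h3
    exact h3

end Pool.Agent.H480R3.Seg.Sym
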