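import Pool.Agent.H480R3.Seg.AbsT
import Pool.Agent.H480R3.Seg.Sym

/-! Singularities beyond the centre force oscillations of size `x^δ`: matrices, Artin L-functions,
twisted symmetric powers (helper480). -/

set_option autoImplicit false

open Complex Filter Topology Finset NumberField

namespace Pool.Agent.H480R3.Seg

open Pool.Agent.H438R3.BSD Pool.Agent.H438R3.BSD.Gen

theorem mainMT {n r N : ℕ} {good : ℕ → Prop} {M : ℕ → Matrix (Fin n) (Fin n) ℂ}
    {lam : ℕ → Fin r → ℂ}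
    (hgood : ∀ p, good p → p.Prime) (hN : 0 < N) (hM : ∀ p, good p → M p ^ N = 1)
    (hlam : ∀ p, good p → ∀ j, ‖lam p j‖ = (p : ℝ) ^ (1 / 2 : ℝ))
    (him : ∀ p, good p → ∀ m, ((M p ^ m).trace * ∑ j, lam p j ^ m).im = 0) {F : ℂ → ℂ}
    (hprod : open Classical in ∀ s : ℂ, 3 / 2 < s.re →
      HasProd (fun p : ℕ => if good p then (fac M lam p ((p : ℂ) ^ (-s)))⁻¹ else 1) (F s))
    (δ : ℝ) (hδ0 : 0 ≤ δ) (hδ : δ < 1 / 2) (hne : ¬ ExtT (1 + δ) F) :
    ((∀ σ : ℝ, 1 + δ < σ → AnalyticAt ℂ F σ) → ∀ C : ℝ,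
      ∃ᶠ x : ℕ in atTop, Real.exp (C * (x : ℝ) ^ δ) < EPM good M lam x) ∧
    ((∀ σ : ℝ, 1 + δ < σ → AnalyticAt ℂ (fun s => (F s)⁻¹) σ) → ∀ C : ℝ,
      ∃ᶠ x : ℕ in atTop, EPM good M lam x < Real.exp (-(C * (x : ℝ) ^ δ))) := by
  classical
  have hloc := locC (good := good) (c := cM M lam) (K := (n * r : ℝ)) hgood (by positivity)
    (fun p hp m _ => cM_le hN hM hlam p hp m)
  have hlogE := fun x => log_EPM hgood hN hM hlam him x
  have hprod' : ∀ s : ℂ, 3 / 2 < s.re → HasProd (fun p : ℕ => exp (LLc good (cM M lam) p s)) (F s) :=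
    fun s hs => prodM hgood hN hM hlam him hs (hprod s hs)
  have hg : ∀ k, |(fun x => Real.log (EPM good M lam x)) k - lE (ellc good (cM M lam)) k| ≤ 0 :=
    fun k => by simp only; rw [(hlogE k).2]; simp
  refine ⟨fun hF C => ?_, fun hF C => ?_⟩
  · refine (mainAT hloc δ hδ0 hδ hF hprod' _ 0 hg hne C).mono fun x hx => ?_
    exact (Real.lt_log_iff_exp_lt (hlogE x).1).1 hx
  · refine (mainBT hloc δ hδ0 hδ hF hprod' _ 0 hg hne C).mono fun x hx => ?_
    exact (Real.log_lt_iff_lt_exp (hlogE x).1).1 hx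

end Pool.Agent.H480R3.Seg

namespace Pool.Agent.H480R3.Seg.Artin

variable {K : Type} [Field K] [NumberField K] {n : ℕ}
  {ρ : (K ≃ₐ[ℚ] K) →* Matrix.GeneralLinearGroup (Fin n) ℂ} {frob : ℕ → (K ≃ₐ[ℚ] K)}

/-- `L` has a holomorphic continuation without zeros from `Re s > 1` to `Re s > 1/2 + δ` -/
def ExtD (δ : ℝ) (L : ℂ → ℂ) : Prop :=
  ∃ L' : ℂ → ℂ, DifferentiableOn ℂ L' {s | 1 / 2 + δ < s.re} ∧
    (∀ s, 1 / 2 + δ < s.re → L' s ≠ 0) ∧ ∀ s, 1 < s.re → L' s = L s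

lemma ExtD_of {δ : ℝ} {L : ℂ → ℂ} (h : ExtT (1 + δ) (fun s => L (s + -(1 / 2)))) : ExtD δ L := by
  obtain ⟨F', h1, h2, h3⟩ := h
  refine ⟨fun s => F' (s + 1 / 2), ?_, ?_, ?_⟩
  · refine h1.comp (by fun_prop) ?_
    intro s hs
    have hs' : 1 / 2 + δ < s.re := hs
    show 1 + δ < (s + 1 / 2).re
    rw [Complex.add_re]
    norm_num
    linarith
  · intro s hs
    refine h2 _ ?_
    rw [Complex.add_re]
    norm_num
    linarith
  · intro s hs
    have h4 := h3 (s + 1 / 2) (by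
      rw [Complex.add_re]
      norm_num
      linarith)
    simp only at h4 ⊢
    rw [h4]
    congr 1
    ring

theorem mainD (hρ : ∀ g, (ρ g : Matrix (Fin n) (Fin n) ℂ).trace.im = 0) {L : ℂ → ℂ}
    (hL : IsL ρ frob L) (δ : ℝ) (hδ0 : 0 ≤ δ) (hδ : δ < 1 / 2) (hne : ¬ ExtD δ L) :
    ((∀ σ : ℝ, 1 / 2 + δ < σ → AnalyticAt ℂ L σ) → ∀ C : ℝ,
      ∃ᶠ x : ℕ in atTop, Real.exp (C * (x : ℝ) ^ δ) < EP ρ frob x) ∧
    ((∀ σ : ℝ, 1 / 2 + δ < σ → AnalyticAt ℂ (fun s => (L s)⁻¹) σ) → ∀ C : ℝ,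
      ∃ᶠ x : ℕ in atTop, EP ρ frob x < Real.exp (-(C * (x : ℝ) ^ δ))) := by
  classical
  have hcard : 0 < Nat.card (K ≃ₐ[ℚ] K) := Nat.card_pos
  have hcast : ∀ σ : ℝ, ((σ - 1 / 2 : ℝ) : ℂ) = (σ : ℂ) + -(1 / 2) := by
    intro σ; push_cast; ring
  obtain ⟨h1, h2⟩ := mainMT (good := Good K) (M := MM ρ frob) (lam := ll)
    (F := fun s => L (s + -(1 / 2))) (fun p hp => hp.1) hcard (fun p _ => MM_pow ρ frob p)
    (fun p hp j => ll_norm p hp j) (fun p _ m => im_zero hρ p m)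
    (by
      intro s hs
      have h0 := hL (s + -(1 / 2)) (by
        rw [Complex.add_re]
        norm_num
        linarith)
      suffices e : (fun p : ℕ => if Good K p then (fac (MM ρ frob) ll p ((p : ℂ) ^ (-s)))⁻¹ else 1) =
          fun p : ℕ => if Good K p then (pol ρ frob p ((p : ℂ) ^ (-(s + -(1 / 2)))))⁻¹ else 1 by
        rw [e]; exact h0
      funext p
      split_ifs with h
      · rw [fac_pol]
        have hpc : (p : ℂ) ≠ 0 := by exact_mod_cast h.1.ne_zero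
        rw [← Complex.cpow_add _ _ hpc]
        congr 3
        ring
      · rfl) δ hδ0 hδ (fun h => hne (ExtD_of h))
  refine ⟨fun hreal C => ?_, fun hreal C => ?_⟩
  · have h3 := h1 (fun σ hσ => by
      have h0 := hreal (σ - 1 / 2) (by linarith)
      rw [hcast] at h0
      exact AnalyticAt.comp (g := L) (f := fun s : ℂ => s + -(1 / 2)) h0 (by fun_prop)) C
    simp_rw [EP_eq] at h3
    exact h3
  · have h3 := h2 (fun σ hσ => by
      have h0 := hreal (σ - 1 / 2) (by linarith)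
      rw [hcast] at h0
      exact AnalyticAt.comp (g := fun s => (L s)⁻¹) (f := fun s : ℂ => s + -(1 / 2)) h0
        (by fun_prop)) C
    simp_rw [EP_eq] at h3
    exact h3

end Pool.Agent.H480R3.Seg.Artin

namespace Pool.Agent.H480R3.Seg.Sym

open Pool.Agent.H438R3.BSD

variable {K : Type} [Field K] [NumberField K] {n : ℕ} {a b : ℤ} {j : ℕ}
  {ρ : (K ≃ₐ[ℚ] K) →* Matrix.GeneralLinearGroup (Fin n) ℂ} {frob : ℕ → (K ≃ₐ[ℚ] K)}

/-- `L` has a holomorphic continuation without zeros from `Re s > 1/2` to `Re s > δ` -/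
def ExtD (δ : ℝ) (L : ℂ → ℂ) : Prop :=
  ∃ L' : ℂ → ℂ, DifferentiableOn ℂ L' {s | δ < s.re} ∧
    (∀ s, δ < s.re → L' s ≠ 0) ∧ ∀ s, 1 / 2 < s.re → L' s = L s

lemma ExtD_of {δ : ℝ} {L : ℂ → ℂ} (h : ExtT (1 + δ) (fun s => L (s + -1))) : ExtD δ L := by
  obtain ⟨F', h1, h2, h3⟩ := h
  refine ⟨fun s => F' (s + 1), ?_, ?_, ?_⟩
  · refine h1.comp (by fun_prop) ?_
    intro s hs
    have hs' : δ < s.re := hs
    show 1 + δ < (s + 1).re
    rw [Complex.add_re, Complex.one_re]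
    linarith
  · intro s hs
    refine h2 _ ?_
    rw [Complex.add_re, Complex.one_re]
    linarith
  · intro s hs
    have h4 := h3 (s + 1) (by
      rw [Complex.add_re, Complex.one_re]
      linarith)
    simp only at h4 ⊢
    rw [h4]
    congr 1
    ring

theorem mainD (hρ : ∀ g, (ρ g : Matrix (Fin n) (Fin n) ℂ).trace.im = 0) {L : ℂ → ℂ}
    (hL : IsL a b j ρ frob L) (δ : ℝ) (hδ0 : 0 ≤ δ) (hδ : δ < 1 / 2) (hne : ¬ ExtD δ L) :
    ((∀ σ : ℝ, δ < σ → AnalyticAt ℂ L σ) → ∀ C : ℝ,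
      ∃ᶠ x : ℕ in atTop, Real.exp (C * (x : ℝ) ^ δ) < EP a b j ρ frob x) ∧
    ((∀ σ : ℝ, δ < σ → AnalyticAt ℂ (fun s => (L s)⁻¹) σ) → ∀ C : ℝ,
      ∃ᶠ x : ℕ in atTop, EP a b j ρ frob x < Real.exp (-(C * (x : ℝ) ^ δ))) := by
  classical
  have hcard : 0 < Nat.card (K ≃ₐ[ℚ] K) := Nat.card_pos
  have hcast : ∀ σ : ℝ, ((σ - 1 : ℝ) : ℂ) = (σ : ℂ) + -1 := by
    intro σ; push_cast; ring
  obtain ⟨h1, h2⟩ := mainMT (good := GoodP K a b) (M := Artin.MM ρ frob) (lam := eig a b j)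
    (F := fun s => L (s + -1)) (fun p hp => hp.1.1) hcard (fun p _ => Artin.MM_pow ρ frob p)
    (fun p hp i => eig_norm a b j hp.1 i) (fun p _ m => im_zero hρ p m)
    (by
      intro s hs
      have h0 := hL (s + -1) (by
        rw [Complex.add_re]
        norm_num
        linarith)
      suffices e : (fun p : ℕ => if GoodP K a b p then
          (fac (Artin.MM ρ frob) (eig a b j) p ((p : ℂ) ^ (-s)))⁻¹ else 1) =
          fun p : ℕ => if GoodP K a b p then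
            (pol a b j ρ frob p ((p : ℂ) ^ (-(s + -1 + 1))))⁻¹ else 1 by
        rw [e]; exact h0
      funext p
      rw [fac_pol]
      have e2 : s + -1 + 1 = s := by ring
      rw [e2]) δ hδ0 hδ (fun h => hne (ExtD_of h))
  refine ⟨fun hreal C => ?_, fun hreal C => ?_⟩
  · have h3 := h1 (fun σ hσ => by
      have h0 := hreal (σ - 1) (by linarith)
      rw [hcast] at h0
      exact AnalyticAt.comp (g := L) (f := fun s : ℂ => s + -1) h0 (by fun_prop)) C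
    simp_rw [EP_eq] at h3
    exact h3
  · have h3 := h2 (fun σ hσ => by
      have h0 := hreal (σ - 1) (by linarith)
      rw [hcast] at h0
      exact AnalyticAt.comp (g := fun s => (L s)⁻¹) (f := fun s : ℂ => s + -1) h0
        (by fun_prop)) C
    simp_rw [EP_eq] at h3
    exact h3

end Pool.Agent.H480R3.Seg.Sym
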