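import Pool.Agent.H480R3.Seg.MatT

/-! Zeros of `L(E ⊗ ρ, s)` to the right of `Re s = 1 + δ` and point counts (helper480). -/

set_option autoImplicit false

open Complex Filter Topology Finset NumberField

namespace Pool.Agent.H480R3.Seg.RHE

open Pool.Agent.H438R3.BSD

variable {K : Type} [Field K] [NumberField K] {n : ℕ} (a b : ℤ)
  (ρ : (K ≃ₐ[ℚ] K) →* Matrix.GeneralLinearGroup (Fin n) ℂ) (frob : ℕ → (K ≃ₐ[ℚ] K))

/-- `det(1 - a_p z R + p z² R²)`, with `R = ρ(Frob_p)` and `a_p = p - N_p` -/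
noncomputable def pol (p : ℕ) (z : ℂ) : ℂ :=
  (1 - (((p : ℂ) - (Np a b p : ℂ)) * z) • (ρ (frob p) : Matrix (Fin n) (Fin n) ℂ) +
    ((p : ℂ) * z ^ 2) • (ρ (frob p) : Matrix (Fin n) (Fin n) ℂ) ^ 2).det

open Classical in
/-- `F` is entire, equal for `Re s > 3/2` to the Euler product of `L(E ⊗ ρ, s)` over the primes
not dividing `2 (-4 a³ - 27 b²)` nor the discriminant of `K` -/
def IsL (F : ℂ → ℂ) : Prop :=
  Differentiable ℂ F ∧ ∀ s : ℂ, 3 / 2 < s.re →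
    HasProd (fun p : ℕ => if Sym.GoodP K a b p then (pol a b ρ frob p ((p : ℂ) ^ (-s)))⁻¹ else 1)
      (F s)

open Classical in
/-- the product of `|det(1 - (a_p / p) R + (1 / p) R²)|` over the good primes `p ≤ x` -/
noncomputable def EP (x : ℕ) : ℝ :=
  ∏ p ∈ Finset.Icc 1 x, if Sym.GoodP K a b p then ‖pol a b ρ frob p (p : ℂ)⁻¹‖ else 1

lemma pol_eq {p : ℕ} (h : Good a b p) (z : ℂ) :
    fac (Artin.MM ρ frob) (Sym.eig a b 0) p z = pol a b ρ frob p z := by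
  unfold fac pol
  rw [show (∏ j : Fin (2 * 0 + 2), (1 - (Sym.eig a b 0 p j * z) • Artin.MM ρ frob p).det) =
    (1 - (al a b p * z) • Artin.MM ρ frob p).det *
      (1 - (starRingEnd ℂ (al a b p) * z) • Artin.MM ρ frob p).det by
      rw [Fin.prod_univ_two]
      simp [Sym.eig]]
  rw [← Matrix.det_mul]
  congr 1
  have h1 := al_mul_conj h
  have h2 := al_add_conj a b p
  rw [← h2]
  have h3 : ((p : ℂ) * z ^ 2) = (al a b p * z) * (starRingEnd ℂ (al a b p) * z) := by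
    rw [← h1]; ring
  rw [h3]
  unfold Artin.MM
  rw [sub_mul, one_mul, mul_sub, mul_one, smul_mul_smul_comm, add_mul, add_smul, pow_two]
  abel

/-- a zero excludes the zero-free continuation -/
lemma not_ExtT {F : ℂ → ℂ} (hF : Differentiable ℂ F) {t0 : ℝ} {z : ℂ} (hz : t0 < z.re)
    (h0 : F z = 0) : ¬ ExtT t0 F := by
  rintro ⟨F', h1, h2, h3⟩
  have hopen : IsOpen {s : ℂ | t0 < s.re} := Pool.Agent.H438R3.BSD.isOpen_re_gt t0
  have hconv : IsPreconnected {s : ℂ | t0 < s.re} := (convex_halfSpace_re_gt t0).isPreconnected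
  set w : ℂ := ((max t0 (3 / 2) + 1 : ℝ) : ℂ) with hw
  have hw1 : t0 < w.re := by rw [hw, ofReal_re]; linarith [le_max_left t0 (3 / 2)]
  have hw2 : 3 / 2 < w.re := by rw [hw, ofReal_re]; linarith [le_max_right t0 (3 / 2)]
  have h4 := AnalyticOnNhd.eqOn_of_preconnected_of_eventuallyEq (h1.analyticOnNhd hopen)
    ((hF.differentiableOn (s := {s : ℂ | t0 < s.re})).analyticOnNhd hopen) hconv
    (z₀ := w) hw1 (by
      filter_upwards [(Pool.Agent.H438R3.BSD.isOpen_re_gt (3 / 2)).mem_nhds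
        (show w ∈ {s : ℂ | 3 / 2 < s.re} from hw2)] with s hs
      exact h3 s hs)
  exact h2 z hz ((h4 hz).trans h0)

variable {a b ρ frob}

theorem main (hρ : ∀ g, (ρ g : Matrix (Fin n) (Fin n) ℂ).trace.im = 0) {F : ℂ → ℂ}
    (hF : IsL a b ρ frob F) (δ : ℝ) (hδ0 : 0 ≤ δ) (hδ : δ < 1 / 2)
    (hz : ∃ z : ℂ, 1 + δ < z.re ∧ F z = 0) :
    (∀ C : ℝ, ∃ᶠ x : ℕ in atTop, Real.exp (C * (x : ℝ) ^ δ) < EP a b ρ frob x) ∧
    ((∀ σ : ℝ, 1 + δ < σ → F σ ≠ 0) →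
      ∀ C : ℝ, ∃ᶠ x : ℕ in atTop, EP a b ρ frob x < Real.exp (-(C * (x : ℝ) ^ δ))) := by
  classical
  obtain ⟨z, hz1, hz2⟩ := hz
  have hEP : ∀ x, EPM (Sym.GoodP K a b) (Artin.MM ρ frob) (Sym.eig a b 0) x = EP a b ρ frob x := by
    intro x
    unfold EPM EP
    refine Finset.prod_congr rfl fun p _ => ?_
    split_ifs with h
    · rw [pol_eq a b ρ frob h.1]
    · rfl
  have hcard : 0 < Nat.card (K ≃ₐ[ℚ] K) := Nat.card_pos
  obtain ⟨h1, h2⟩ := mainMT (good := Sym.GoodP K a b) (M := Artin.MM ρ frob)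
    (lam := Sym.eig a b 0) (F := F) (fun p hp => hp.1.1) hcard
    (fun p _ => Artin.MM_pow ρ frob p) (fun p hp i => Sym.eig_norm a b 0 hp.1 i)
    (fun p _ m => Sym.im_zero hρ p m)
    (by
      intro s hs
      have h0 := hF.2 s hs
      suffices e : (fun p : ℕ => if Sym.GoodP K a b p then
          (fac (Artin.MM ρ frob) (Sym.eig a b 0) p ((p : ℂ) ^ (-s)))⁻¹ else 1) =
          fun p : ℕ => if Sym.GoodP K a b p then (pol a b ρ frob p ((p : ℂ) ^ (-s)))⁻¹ else 1 by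
        rw [e]; exact h0
      funext p
      split_ifs with h
      · rw [pol_eq a b ρ frob h.1]
      · rfl) δ hδ0 hδ (not_ExtT hF.1 hz1 hz2)
  simp_rw [hEP] at h1 h2
  exact ⟨h1 fun σ _ => hF.1.analyticAt _,
    fun hnz => h2 fun σ hσ => (hF.1.analyticAt _).inv (hnz σ hσ)⟩

end Pool.Agent.H480R3.Seg.RHE
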