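import Pool.Agent.H480R3.Seg.Main

/-! Both halves of the theorem with their own hypotheses (helper480). -/

set_option autoImplicit false

open Complex Filter Topology Finset

namespace Pool.Agent.H480R3.Seg

open Pool.Agent.H438R3.BSD Pool.Agent.H438R3.BSD.Gen

variable {LL : ℕ → ℂ → ℂ} {ell : ℕ → ℝ} {A : ℝ}

lemma dd_neg (n : ℕ) (s : ℂ) :
    Gen.dd (fun p s => -LL p s) (fun p => -ell p) n s = -Gen.dd LL ell n s := by
  unfold Gen.dd
  push_cast
  ring

lemma locNeg (h : Loc LL ell A) : Loc (fun p s => -LL p s) (fun p => -ell p) A where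
  pos := h.pos
  zeroL n s hn := by simp [h.zeroL n s hn]
  zeroE n hn := by simp [h.zeroE n hn]
  ell_le n hn := by rw [abs_neg]; exact h.ell_le n hn
  dd_le n s hn hs := by rw [dd_neg, norm_neg]; exact h.dd_le n s hn hs
  dd_real n w hn hw := by rw [dd_neg, norm_neg]; exact h.dd_real n w hn hw
  diff n := (h.diff n).neg

lemma F_ne_zero (h : Loc LL ell A) {F : ℂ → ℂ}
    (hprod : ∀ s : ℂ, 3 / 2 < s.re → HasProd (fun p : ℕ => exp (LL p s)) (F s)) (s : ℂ)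
    (hs : 3 / 2 < s.re) : F s ≠ 0 := by
  rw [prod_eq h hs (hprod s hs)]
  exact Complex.exp_ne_zero _

lemma prod_inv (h : Loc LL ell A) {F : ℂ → ℂ}
    (hprod : ∀ s : ℂ, 3 / 2 < s.re → HasProd (fun p : ℕ => exp (LL p s)) (F s)) (s : ℂ)
    (hs : 3 / 2 < s.re) : HasProd (fun p : ℕ => exp (-LL p s)) (F s)⁻¹ := by
  have hL := ellterm_summable h hs
  have hD := dd_summable h (by linarith : 1 < s.re)
  have h1 := hD.hasSum.sub hL.hasSum
  have e : (fun p => Gen.dd LL ell p s - (ell p : ℂ) * (p : ℂ) ^ (1 - s)) = fun p => LL p s := by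
    funext p
    unfold Gen.dd
    ring
  rw [e] at h1
  have h2 := h1.neg.cexp
  rw [prod_eq h hs (hprod s hs), ← Complex.exp_neg]
  exact h2

lemma Ext_inv {F : ℂ → ℂ} (hE : Ext (fun s => (F s)⁻¹)) : Ext F := by
  obtain ⟨F', h1, h2, h3⟩ := hE
  refine ⟨fun s => (F' s)⁻¹, h1.inv fun s hs => h2 s hs, fun s hs => inv_ne_zero (h2 s hs), ?_⟩
  intro s hs
  simp only [h3 s hs, inv_inv]

/-- the order of vanishing is finite -/
theorem order_finiteM (h : Loc LL ell A) {F : ℂ → ℂ} (hF : ∀ σ : ℝ, 1 ≤ σ → MeromorphicAt F σ)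
    (hprod : ∀ s : ℂ, 3 / 2 < s.re → HasProd (fun p : ℕ => exp (LL p s)) (F s)) :
    ∃ m : ℤ, meromorphicOrderAt F 1 = m := by
  have hS : IsConnected ((fun σ : ℝ => (σ : ℂ)) '' Set.Ici 1) :=
    (isConnected_Ici).image _ Complex.continuous_ofReal.continuousOn
  have hM : MeromorphicOn F ((fun σ : ℝ => (σ : ℂ)) '' Set.Ici 1) := by
    rintro z ⟨σ, hσ, rfl⟩
    exact hF σ hσ
  have h2 : meromorphicOrderAt F ((2 : ℝ) : ℂ) ≠ ⊤ := by
    rw [meromorphicOrderAt_ne_top_iff_eventually_ne_zero (hF 2 (by norm_num))]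
    have h3 : ∀ᶠ s : ℂ in 𝓝 ((2 : ℝ) : ℂ), 3 / 2 < s.re := by
      apply Complex.continuous_re.continuousAt.eventually_const_lt
      rw [Complex.ofReal_re]; norm_num
    exact (h3.filter_mono nhdsWithin_le_nhds).mono fun s hs => F_ne_zero h hprod s hs
  have h4 := (hM.exists_meromorphicOrderAt_ne_top_iff_forall hS).1
    ⟨⟨((2 : ℝ) : ℂ), 2, by simp, rfl⟩, h2⟩
  have h5 := h4 ⟨((1 : ℝ) : ℂ), 1, by simp, rfl⟩
  simp only [Complex.ofReal_one] at h5
  exact ⟨(meromorphicOrderAt F 1).untop h5, (WithTop.coe_untop _ h5).symm⟩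

/-- the upper half -/
theorem mainA (h : Loc LL ell A) {F : ℂ → ℂ} (hF : ∀ σ : ℝ, 1 < σ → AnalyticAt ℂ F σ)
    (hF1 : MeromorphicAt F 1)
    (hprod : ∀ s : ℂ, 3 / 2 < s.re → HasProd (fun p : ℕ => exp (LL p s)) (F s))
    (g : ℕ → ℝ) (B : ℝ) (hg : ∀ n, |g n - lE ell n| ≤ B) (m : ℤ)
    (hm : meromorphicOrderAt F 1 = m) (κ : ℝ) (hκ : κ < m ∨ ¬ Ext F) (C : ℝ) :
    (∃ᶠ x : ℕ in atTop, C < Gen.LA g κ x) ∧
      ∃ᶠ x : ℕ in atTop, C < g x - κ * Real.log (Real.log x) := by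
  obtain ⟨m', hm', h1, -⟩ := mainR h hF hF1 hprod g B hg
  have : m' = m := by
    rw [hm] at hm'
    exact (WithTop.coe_injective hm').symm
  subst this
  exact h1 κ hκ C

/-- the lower half -/
theorem mainB (h : Loc LL ell A) {F : ℂ → ℂ}
    (hF : ∀ σ : ℝ, 1 < σ → AnalyticAt ℂ (fun s => (F s)⁻¹) σ) (hF1 : MeromorphicAt F 1)
    (hprod : ∀ s : ℂ, 3 / 2 < s.re → HasProd (fun p : ℕ => exp (LL p s)) (F s))
    (g : ℕ → ℝ) (B : ℝ) (hg : ∀ n, |g n - lE ell n| ≤ B) (m : ℤ)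
    (hm : meromorphicOrderAt F 1 = m) (κ : ℝ) (hκ : (m : ℝ) < κ ∨ ¬ Ext F) (C : ℝ) :
    (∃ᶠ x : ℕ in atTop, Gen.LA g κ x < C) ∧
      ∃ᶠ x : ℕ in atTop, g x - κ * Real.log (Real.log x) < C := by
  have hg' : ∀ n, |(fun k => -g k) n - lE (fun p => -ell p) n| ≤ B := by
    intro n
    have e : lE (fun p => -ell p) n = -lE ell n := by
      unfold lE
      rw [Finset.sum_neg_distrib]
    simp only
    rw [e, ← abs_neg]
    have e2 : -(-g n - -lE ell n) = g n - lE ell n := by ring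
    rw [e2]
    exact hg n
  have hm' : meromorphicOrderAt (fun s => (F s)⁻¹) 1 = ((-m : ℤ) : WithTop ℤ) := by
    have e : (fun s => (F s)⁻¹) = F⁻¹ := rfl
    rw [e, meromorphicOrderAt_inv, hm]
    rfl
  obtain ⟨h1, h2⟩ := mainA (locNeg h) hF (hF1.inv) (fun s hs => prod_inv h hprod s hs)
    (fun k => -g k) B hg' (-m) hm' (-κ) (by
      rcases hκ with h3 | h3
      · left; push_cast; linarith
      · right; exact fun h4 => h3 (Ext_inv h4)) (-C)
  refine ⟨h1.mono fun x hx => ?_, h2.mono fun x hx => ?_⟩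
  · have e : Gen.LA (fun k => -g k) (-κ) x = -Gen.LA g κ x := by
      unfold Gen.LA
      rw [← neg_div, ← Finset.sum_neg_distrib]
      congr 1
      refine Finset.sum_congr rfl fun n _ => ?_
      ring
    rw [e] at hx
    linarith
  · linarith

end Pool.Agent.H480R3.Seg
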